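import Mathlib
import Pool.Agent.Lib.MP_0e79d0_lc.Defs
import Pool.Agent.Lib.MP_0e79d0_lcF.AffineDefs
import Pool.Agent.Lib.MP_0e79d0_lcF.AffineMain

/-!
The strong exponential time hypothesis for weighted exact covers of the Boolean cube by members of
an arbitrary fixed family of at most `2 ^ (L n)` functions, with clause width depending only on
`ε` and `L`; consequences for partitions of the cube into arbitrary affine subspaces over the field
with two elements.
-/

namespace Pool.Agent.Results.MP_0e79d0_lc.BranchingOnFixedFamilies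

open Pool.Agent.Lib.MP_0e79d0_lc Pool.Agent.Lib.MP_0e79d0_lcF

/-- For every `0 < ε ≤ 1` and all large `n`:

1. Let `L ≥ 1` with `(log₂ L + 1) ^ 2 ≤ n`, and let
  `k ≥ (320/ε) (log₂(10/ε) + 4) (log₂(10/ε) + log₂ L + 2)`. For every family `𝓕` of at most
  `2 ^ (L n)` real functions on the cube there is an unsatisfiable `k`-CNF formula `F` over `n`
  variables such that, whenever members `f i` of `𝓕` with real weights `w i` sum to `1` at every
  point of the cube, and each `f i` vanishes outside the assignments that falsify some clause of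
  a set `T ⊆ F` of clauses on at most `(1 - ε) n` variables, the number of functions times the
  sum of `w i ^ 2 ‖f i‖ ^ 2` is at least `2 ^ ((1 - ε) n) * 2 ^ n`. (For a partition of the cube
  into sets whose indicator functions belong to `𝓕` the sum is `2 ^ n`, so the partition has at
  least `2 ^ ((1 - ε) n)` parts.)
2. For `(320/ε) (log₂(10/ε) + 4) ^ 2 ≤ k ≤ (1 - ε) n` there is an unsatisfiable `k`-CNF formula
  `F` over `n` variables such that every partition of the cube into affine subspaces, on each of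
  which some clause of `F` is false, has at least `2 ^ ((1/2 - ε) n)` parts.
3. For `k ≥ (320/ε) (log₂(10/ε) + 4) (log₂(10/ε) + log₂ n + 3)` there is an unsatisfiable
  `k`-CNF formula `F` over `n` variables such that every partition of the cube into affine
  subspaces, each refuted by clauses of `F` on at most `(1 - ε) n` variables, has at least
  `2 ^ ((1 - ε) n)` parts. -/
theorem result (ε : ℝ) (hε : 0 < ε) (hε1 : ε ≤ 1) : ∃ n₀ : ℕ, ∀ n ≥ n₀,
    (∀ (L : ℝ) (k : ℕ), 1 ≤ L → (Real.logb 2 L + 1) ^ 2 ≤ n →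
      320 / ε * (Real.logb 2 (10 / ε) + 4) * (Real.logb 2 (10 / ε) + Real.logb 2 L + 2) ≤ k →
      ∀ 𝓕 : Finset ((Fin n → Bool) → ℝ), (𝓕.card : ℝ) ≤ (2:ℝ) ^ (L * n) →
      ∃ F : Set (KClause k n), ¬ Satisfiable F ∧
        ∀ (ι : Type) [Fintype ι] (f : ι → (Fin n → Bool) → ℝ) (w : ι → ℝ),
          (∀ i, f i ∈ 𝓕) →
          (∀ α : Fin n → Bool, ∑ i, w i * f i α = 1) →
          (∀ i, ∃ T : Set (KClause k n), T ⊆ F ∧ ((vars T).ncard : ℝ) ≤ (1 - ε) * n ∧
            ∀ α, f i α ≠ 0 → ∃ C ∈ T, ¬ SatisfiesClause α C) →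
          (2:ℝ) ^ ((1 - ε) * n) * 2 ^ n ≤
            Fintype.card ι * ∑ i, w i ^ 2 * ∑ α, f i α ^ 2) ∧
    (∀ k : ℕ, 320 / ε * (Real.logb 2 (10 / ε) + 4) ^ 2 ≤ k → (k : ℝ) ≤ (1 - ε) * n →
      ∃ F : Set (KClause k n), ¬ Satisfiable F ∧
        ∀ (s : ℕ) (A : Fin s → Set (Fin n → Bool)), (∀ i, IsAffine (A i)) →
          (∀ α, ∃! i, α ∈ A i) → (∀ i, ∃ C ∈ F, ∀ α ∈ A i, ¬ SatisfiesClause α C) →
          (2:ℝ) ^ ((1 / 2 - ε) * n) ≤ s) ∧
    (∀ k : ℕ,
      320 / ε * (Real.logb 2 (10 / ε) + 4) * (Real.logb 2 (10 / ε) + Real.logb 2 n + 3) ≤ k →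
      ∃ F : Set (KClause k n), ¬ Satisfiable F ∧
        ∀ (s : ℕ) (A : Fin s → Set (Fin n → Bool)), (∀ i, IsAffine (A i)) →
          (∀ α, ∃! i, α ∈ A i) →
          (∀ i, ∃ T : Set (KClause k n), T ⊆ F ∧ ((vars T).ncard : ℝ) ≤ (1 - ε) * n ∧
            ∀ α ∈ A i, ∃ C ∈ T, ¬ SatisfiesClause α C) →
          (2:ℝ) ^ ((1 - ε) * n) ≤ s) := by
  obtain ⟨n₁, h₁⟩ := family_main ε hε hε1
  obtain ⟨n₂, h₂⟩ := half_main ε hε hε1
  obtain ⟨n₃, h₃⟩ := affine_partition_main ε hε hε1
  exact ⟨max n₁ (max n₂ n₃), fun n hn =>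
    ⟨h₁ n ((le_max_left _ _).trans hn),
      h₂ n ((le_max_left _ _).trans ((le_max_right _ _).trans hn)),
      h₃ n ((le_max_right _ _).trans ((le_max_right _ _).trans hn))⟩⟩

end Pool.Agent.Results.MP_0e79d0_lc.BranchingOnFixedFamilies
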