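import Mathlib
import Pool.Agent.Lib.MP_0e79d0_lc.Defs
import Pool.Agent.Lib.MP_0e79d0_lc.Main

/-!
The randomized strong exponential time hypothesis holds for bounded-error randomized monotone
formulas with local leaves.
-/

namespace Pool.Agent.Results.MP_0e79d0_lc.RandomizedMonotoneFormulas

open Pool.Agent.Lib.MP_0e79d0_lc

/-- Put `m = (1 - 8 (3 log₂ k + 16) / k) n`. For every `k ≥ 1` and all large `n`: if a probability
distribution on formulas with binary conjunctions and disjunctions, whose leaves are arbitrary
`m`-local functions of the `k`-CNF formula, decides the unsatisfiability of every `k`-CNF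
formula over `n` variables with error probability at most `1/3`, then some formula in its support
has at least `2 ^ m` leaves. -/
theorem result (k : ℕ) (hk : 1 ≤ k) : ∃ n₀ : ℕ, ∀ n ≥ n₀, ∀ m : ℝ,
    m = (1 - 8 * (3 * Real.logb 2 k + 16) / k) * n →
    ∀ P : PMF (MFormula (IsLocal (k := k) (n := n) m)), DecidesUnsat P →
    ∃ ψ ∈ P.support, (2:ℝ) ^ m ≤ ψ.size := by
  obtain ⟨n₀, hn₀⟩ := main k hk
  refine ⟨n₀, fun n hn m hm => ?_⟩
  subst hm
  exact hn₀ n hn

end Pool.Agent.Results.MP_0e79d0_lc.RandomizedMonotoneFormulas
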