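import Mathlib
import Pool.Agent.Lib.MP_0e79d0_lc.Defs
import Pool.Agent.Lib.MP_0e79d0_lc.RegularDefs
import Pool.Agent.Lib.MP_0e79d0_lc.RegularMain

/-!
The strong exponential time hypothesis holds for regular resolution, with savings
`O((log k)^2 / k)`.
-/

namespace Pool.Agent.Results.MP_0e79d0_lc.RegularResolution

open Pool.Agent.Lib.MP_0e79d0_lc

/-- Put `m = (1 - 448 (log₂ k + 4)^2 / k) n`. For every `k ≥ 1` and all large `n` there is an
unsatisfiable `k`-CNF formula `F` over `n` variables such that every regular resolution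
refutation of `F` (a sequence of clauses, each used any number of times) has at least `2 ^ m`
lines. -/
theorem result (k : ℕ) (hk : 1 ≤ k) : ∃ n₀ : ℕ, ∀ n ≥ n₀, ∀ m : ℝ,
    m = (1 - 448 * (Real.logb 2 k + 4) ^ 2 / k) * n →
    ∃ F : Set (KClause k n), ¬ Satisfiable F ∧
      ∀ (s : ℕ) (π : Refutation F s), π.Regular → (2:ℝ) ^ m ≤ s := by
  obtain ⟨n₀, h⟩ := regular_main k hk
  refine ⟨n₀, fun n hn m hm => ?_⟩
  obtain ⟨F, hF, _, h2⟩ := h n hn m hm
  exact ⟨F, hF, h2⟩

end Pool.Agent.Results.MP_0e79d0_lc.RegularResolution
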