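import Pool.Agent.Lib.MP_0e79d0_lc.Depth.Core

set_option autoImplicit false

namespace Pool.Agent.Results.MP_0e79d0_lc.ResolutionDepth

open Finset Pool.Agent.Lib.MP_0e79d0_lc.Depth

/-- A suitable power of two. -/
lemma exists_l {k K : ℕ} (hK : 1 ≤ K) (h : 36 * 8 * K ≤ k) :
    ∃ l, 1 ≤ l ∧ 36 * 8 ^ l * l ^ 2 * K ≤ k ∧ k < 36 * 8 ^ (l + 1) * (l + 1) ^ 2 * K := by
  classical
  have hex : ∃ m, k < 36 * 8 ^ (m + 1) * (m + 1) ^ 2 * K := by
    refine ⟨k, ?_⟩
    calc k < 8 ^ k := Nat.lt_pow_self (by norm_num)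
      _ ≤ 8 ^ (k + 1) := Nat.pow_le_pow_right (by norm_num) (Nat.le_succ _)
      _ ≤ 8 ^ (k + 1) * (36 * (k + 1) ^ 2 * K) := Nat.le_mul_of_pos_right _ (by positivity)
      _ = 36 * 8 ^ (k + 1) * (k + 1) ^ 2 * K := by ring
  refine ⟨Nat.find hex, ?_, ?_, Nat.find_spec hex⟩
  · by_contra hcon
    have h0 : Nat.find hex = 0 := by omega
    have := Nat.find_spec hex
    rw [h0] at this
    norm_num at this
    omega
  · by_contra hcon
    push Not at hcon
    rcases Nat.eq_zero_or_pos (Nat.find hex) with h0 | h0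
    · rw [h0] at hcon
      norm_num at hcon
    · have := Nat.find_min hex (m := Nat.find hex - 1) (by omega)
      apply this
      rwa [Nat.sub_add_cancel h0]

/-- The strong exponential time hypothesis for resolution of linear depth. For all `k, K ≥ 1` and
`n ≥ k ^ 2` there is an unsatisfiable `k`-CNF formula over `n` variables all of whose dag-like
resolution refutations of depth at most `K n`, in which variables may be resolved several times
along a path, have at least `2 ^ ((1 - 40 (K (log₂ k + 1)² / k) ^ (1 / 3)) n)` lines. -/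
theorem result (k K n : ℕ) (hk : 1 ≤ k) (hK : 1 ≤ K) (hn : k ^ 2 ≤ n) :
    ∃ F : Set (Finset (Fin n × Bool)),
      (∀ C ∈ F, C.card ≤ k) ∧
      (∀ α : Fin n → Bool, ∃ C ∈ F, ∀ x ∈ C, α x.1 ≠ x.2) ∧
      ∀ R : Refutation F, (∀ i, R.depth i ≤ K * n) →
        (2 : ℝ) ^ ((1 - 40 * ((K : ℝ) * (Real.logb 2 k + 1) ^ 2 / k) ^ (1 / 3 : ℝ)) * n) ≤
          R.size := by
  have hkR : (1 : ℝ) ≤ k := by exact_mod_cast hk
  have hKR : (1 : ℝ) ≤ K := by exact_mod_cast hK
  have hlog : 0 ≤ Real.logb 2 (k : ℝ) := Real.logb_nonneg (by norm_num) hkR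
  set Y : ℝ := (K : ℝ) * (Real.logb 2 k + 1) ^ 2 / k with hY
  have hY0 : 0 < Y := by positivity
  set X : ℝ := Y ^ (1 / 3 : ℝ) with hX
  have hX0 : 0 < X := by positivity
  have hX3 : X ^ 3 = Y := by
    rw [hX, ← Real.rpow_natCast, ← Real.rpow_mul hY0.le]
    norm_num
  by_cases hcase : 36 * 8 * K ≤ k
  · obtain ⟨l, hl, hl1, hl2⟩ := exists_l hK hcase
    have h2l : (2 : ℕ) ≤ 2 ^ l := by
      calc 2 = 2 ^ 1 := rfl
        _ ≤ 2 ^ l := Nat.pow_le_pow_right (by norm_num) hl
    have h8 : (8 : ℕ) ^ l = (2 ^ l) ^ 3 := by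
      rw [← pow_mul, mul_comm, pow_mul]
      norm_num
    obtain ⟨F, hF1, hF2, hF3⟩ := core (l := l) (K := K) (n := n) hl hK (by
      refine le_trans ?_ hn
      have e1 : 2 * (2 ^ l * (18 * (2 ^ l) ^ 2 * l ^ 2 * K)) = 36 * 8 ^ l * l ^ 2 * K := by
        rw [h8]
        ring
      have e2 : 2 * 2 ^ l * (2 * 2 ^ l + 1) ≤ k := by
        refine le_trans ?_ hl1
        calc 2 * 2 ^ l * (2 * 2 ^ l + 1) ≤ 2 * 2 ^ l * (3 * 2 ^ l) :=
              Nat.mul_le_mul_left _ (by omega)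
          _ = 6 * (2 ^ l) ^ 2 * 1 := by ring
          _ ≤ 36 * (2 ^ l) ^ 3 * (l ^ 2 * K) := by
              refine Nat.mul_le_mul ?_ (Nat.mul_pos (by positivity) (by omega))
              rw [pow_succ (2 ^ l) 2]
              nlinarith [Nat.zero_le ((2 ^ l) ^ 2)]
          _ = 36 * 8 ^ l * l ^ 2 * K := by rw [h8]; ring
      calc 2 * 2 ^ l * (2 * 2 ^ l + 1) * (2 ^ l * (18 * (2 ^ l) ^ 2 * l ^ 2 * K))
          ≤ k * (2 * (2 ^ l * (18 * (2 ^ l) ^ 2 * l ^ 2 * K))) :=
            Nat.mul_le_mul e2 (Nat.le_mul_of_pos_left _ (by norm_num))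
        _ ≤ k * k := Nat.mul_le_mul_left _ (by rw [e1]; exact hl1)
        _ = k ^ 2 := by ring)
    refine ⟨F, fun C hC => (hF1 C hC).trans hl1, hF2, fun R hR => ?_⟩
    refine le_trans (Real.rpow_le_rpow_of_exponent_le (by norm_num) ?_) (hF3 R hR)
    refine mul_le_mul_of_nonneg_right ?_ (Nat.cast_nonneg _)
    -- compare the two expressions for the savings
    have hlk : (l : ℝ) ≤ Real.logb 2 k := by
      rw [Real.le_logb_iff_rpow_le (by norm_num) (by linarith), Real.rpow_natCast]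
      have : 2 ^ l ≤ k := by
        refine le_trans ?_ hl1
        calc 2 ^ l ≤ 8 ^ l := Nat.pow_le_pow_left (by norm_num) l
          _ ≤ 8 ^ l * (36 * (l ^ 2 * K)) :=
              Nat.le_mul_of_pos_right _ (Nat.mul_pos (by norm_num)
                (Nat.mul_pos (by positivity) (by omega)))
          _ = 36 * 8 ^ l * l ^ 2 * K := by ring
      exact_mod_cast this
    have h1 : (k : ℝ) ≤ 288 * (2 ^ l) ^ 3 * (l + 1) ^ 2 * K := by
      have h1 : k ≤ 288 * (2 ^ l) ^ 3 * (l + 1) ^ 2 * K := by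
        refine hl2.le.trans (le_of_eq ?_)
        rw [pow_succ 8 l, h8]
        ring
      exact_mod_cast h1
    have h2 : (6 / (2 : ℝ) ^ l) ^ 3 ≤ (40 * X) ^ 3 := by
      rw [div_pow, mul_pow, hX3, div_le_iff₀ (by positivity), hY]
      have h3 : (k : ℝ) ≤ 288 * (2 ^ l) ^ 3 * (Real.logb 2 k + 1) ^ 2 * K := by
        refine h1.trans ?_
        gcongr
      have h4 : (1 : ℝ) ≤ 288 * ((2 ^ l) ^ 3 * (K * (Real.logb 2 k + 1) ^ 2 / k)) := by
        have : 288 * ((2 ^ l) ^ 3 * (K * (Real.logb 2 k + 1) ^ 2 / k)) =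
            (288 * (2 ^ l) ^ 3 * (Real.logb 2 k + 1) ^ 2 * K) / (k : ℝ) := by
          field_simp
        rw [this, le_div_iff₀ (by linarith), one_mul]
        exact h3
      nlinarith
    have h3 : 6 / (2 : ℝ) ^ l ≤ 40 * X := le_of_pow_le_pow_left₀ (by norm_num) (by positivity) h2
    linarith
  · -- trivial savings
    push Not at hcase
    refine ⟨{∅}, ?_, ?_, ?_⟩
    · intro C hC
      rw [Set.mem_singleton_iff.1 hC, card_empty]
      exact Nat.zero_le _
    · intro α
      exact ⟨∅, rfl, fun x hx => absurd hx (notMem_empty _)⟩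
    · intro R _
      have hsize : (1 : ℝ) ≤ R.size := by
        obtain ⟨i, -⟩ := R.refutes
        have : 0 < R.size := lt_of_le_of_lt (Nat.zero_le _) i.2
        exact_mod_cast this
      refine le_trans (Real.rpow_le_one_of_one_le_of_nonpos (by norm_num) ?_) hsize
      refine mul_nonpos_of_nonpos_of_nonneg ?_ (Nat.cast_nonneg _)
      have h1 : (1 : ℝ) ^ 3 ≤ (40 * X) ^ 3 := by
        rw [mul_pow, hX3, hY]
        have h2 : (k : ℝ) ≤ 288 * K := by
          have : k ≤ 288 * K := by omega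
          exact_mod_cast this
        have h3 : (1 : ℝ) ≤ 288 * (K * (Real.logb 2 k + 1) ^ 2 / k) := by
          have : 288 * (K * (Real.logb 2 k + 1) ^ 2 / k) =
              (288 * K * (Real.logb 2 k + 1) ^ 2) / (k : ℝ) := by
            ring
          rw [this, le_div_iff₀ (by linarith), one_mul]
          nlinarith [mul_nonneg (show (0 : ℝ) ≤ 288 * K by positivity) hlog,
            mul_nonneg (mul_nonneg (show (0 : ℝ) ≤ 288 * K by positivity) hlog) hlog]
        nlinarith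
      have h2 : (1 : ℝ) ≤ 40 * X := le_of_pow_le_pow_left₀ (by norm_num) (by positivity) h1
      linarith

end Pool.Agent.Results.MP_0e79d0_lc.ResolutionDepth
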